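import Mathlib

/-!
Signed counts of marked points on the line, and first passage.
-/

namespace Pool.Agent.MeteorOne

open Set

variable {X : Type*} {p : X → ℝ} {R L : Set X}

/-- Number of points of `R` minus the number of points of `L` with position in `A`. -/
noncomputable def gbal (p : X → ℝ) (R L : Set X) (A : Set ℝ) : ℤ :=
  ({z ∈ R | p z ∈ A}.ncard : ℤ) - ({z ∈ L | p z ∈ A}.ncard : ℤ)

theorem gbal_empty : gbal p R L ∅ = 0 := by
  simp [gbal]

theorem gbal_swap (A : Set ℝ) : gbal p L R A = - gbal p R L A := by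
  simp [gbal]

theorem gbal_neg (A : Set ℝ) : gbal (fun z => - p z) R L A = gbal p R L (-A) := by
  simp [gbal]

theorem gbal_union {A B : Set ℝ} (hAB : Disjoint A B) (hR : {z ∈ R | p z ∈ A ∪ B}.Finite)
    (hL : {z ∈ L | p z ∈ A ∪ B}.Finite) :
    gbal p R L (A ∪ B) = gbal p R L A + gbal p R L B := by
  have key : ∀ S : Set X, {z ∈ S | p z ∈ A ∪ B}.Finite →
      ({z ∈ S | p z ∈ A ∪ B}.ncard : ℤ) = ({z ∈ S | p z ∈ A}.ncard : ℤ) +
        ({z ∈ S | p z ∈ B}.ncard : ℤ) := by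
    intro S hS
    have h1 : {z ∈ S | p z ∈ A ∪ B} = {z ∈ S | p z ∈ A} ∪ {z ∈ S | p z ∈ B} := by
      ext z; simp only [mem_ofPred_eq, mem_union]; tauto
    have h2 : Disjoint {z ∈ S | p z ∈ A} {z ∈ S | p z ∈ B} := by
      rw [Set.disjoint_left]
      rintro z ⟨_, hz⟩ ⟨_, hz'⟩
      exact Set.disjoint_left.mp hAB hz hz'
    have hA : {z ∈ S | p z ∈ A}.Finite := hS.subset fun z hz => ⟨hz.1, Or.inl hz.2⟩
    have hB : {z ∈ S | p z ∈ B}.Finite := hS.subset fun z hz => ⟨hz.1, Or.inr hz.2⟩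
    rw [h1, Set.ncard_union_eq h2 hA hB]
    push_cast
    rfl
  unfold gbal
  rw [key R hR, key L hL]
  ring

section

variable (hinj : ∀ x ∈ R ∪ L, ∀ y ∈ R ∪ L, p x = p y → x = y) (hRL : Disjoint R L)

include hinj

theorem gbal_singleton_right {z : X} (hz : z ∈ R) (hRL : Disjoint R L) :
    gbal p R L {p z} = 1 := by
  have h1 : {w ∈ R | p w ∈ ({p z} : Set ℝ)} = {z} := by
    ext w
    simp only [mem_ofPred_eq, mem_singleton_iff]
    constructor
    · rintro ⟨hw, h⟩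
      exact hinj w (Or.inl hw) z (Or.inl hz) h
    · rintro rfl
      exact ⟨hz, rfl⟩
  have h2 : {w ∈ L | p w ∈ ({p z} : Set ℝ)} = ∅ := by
    rw [Set.eq_empty_iff_forall_notMem]
    rintro w ⟨hw, h⟩
    have := hinj w (Or.inr hw) z (Or.inl hz) h
    subst this
    exact Set.disjoint_left.mp hRL hz hw
  rw [gbal, h1, h2]
  simp

theorem gbal_singleton_left {z : X} (hz : z ∈ L) (hRL : Disjoint R L) :
    gbal p R L {p z} = -1 := by
  have hinj' : ∀ x ∈ L ∪ R, ∀ y ∈ L ∪ R, p x = p y → x = y := by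
    rw [Set.union_comm]; exact hinj
  have := gbal_singleton_right (p := p) (R := L) (L := R) hinj' hz hRL.symm
  rw [gbal_swap] at this
  linarith

end

/-- Reduction of the balance of an initial piece to the balance up to a point. -/
theorem gbal_reduce {A : Set ℝ} (hA0 : A ⊆ Ioi 0) (hA : ∀ a ∈ A, Ioc 0 a ⊆ A)
    (hfin : {z ∈ R ∪ L | p z ∈ A}.Finite) :
    gbal p R L A = 0 ∨ ∃ w ∈ R ∪ L, p w ∈ A ∧ gbal p R L A = gbal p R L (Ioc 0 (p w)) := by
  rcases Set.eq_empty_or_nonempty {z ∈ R ∪ L | p z ∈ A} with he | hne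
  · left
    have h1 : {z ∈ R | p z ∈ A} = ∅ := by
      rw [Set.eq_empty_iff_forall_notMem] at he ⊢
      rintro z ⟨h1, h2⟩; exact he z ⟨Or.inl h1, h2⟩
    have h2 : {z ∈ L | p z ∈ A} = ∅ := by
      rw [Set.eq_empty_iff_forall_notMem] at he ⊢
      rintro z ⟨h1, h2⟩; exact he z ⟨Or.inr h1, h2⟩
    rw [gbal, h1, h2]; simp
  · right
    obtain ⟨w, ⟨hw, hwA⟩, hmax⟩ := Set.exists_max_image _ p hfin hne
    refine ⟨w, hw, hwA, ?_⟩
    have key : ∀ S : Set X, S ⊆ R ∪ L → {z ∈ S | p z ∈ A} = {z ∈ S | p z ∈ Ioc 0 (p w)} := by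
      intro S hS
      ext z
      simp only [mem_ofPred_eq, mem_Ioc]
      constructor
      · rintro ⟨h1, h2⟩
        exact ⟨h1, hA0 h2, hmax z ⟨hS h1, h2⟩⟩
      · rintro ⟨h1, h2⟩
        exact ⟨h1, hA _ hwA h2⟩
    rw [gbal, gbal, key R subset_union_left, key L subset_union_right]

/-- First passage to level `-k`. -/
theorem exists_first (hinj : ∀ x ∈ R ∪ L, ∀ y ∈ R ∪ L, p x = p y → x = y) (hRL : Disjoint R L)
    (hfin : ∀ r, {z ∈ R ∪ L | |p z| ≤ r}.Finite) {k : ℤ} (hk : 0 < k) {y : ℝ}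
    (hy : gbal p R L (Ioc 0 y) ≤ -k) :
    ∃ u ∈ L, 0 < p u ∧ gbal p R L (Ioc 0 (p u)) = -k ∧
      (∀ r < p u, -k < gbal p R L (Ioc 0 r)) ∧ (∀ r ≤ p u, -k < gbal p R L (Ioo 0 r)) := by
  have hfinA : ∀ r, {z ∈ R ∪ L | p z ∈ Ioc 0 r}.Finite := by
    intro r
    apply (hfin r).subset
    rintro z ⟨h1, h2⟩
    exact ⟨h1, by rw [abs_of_pos h2.1]; exact h2.2⟩
  have hfinB : ∀ r, {z ∈ R ∪ L | p z ∈ Ioo 0 r}.Finite := by
    intro r
    apply (hfinA r).subset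
    rintro z ⟨h1, h2⟩
    exact ⟨h1, h2.1, h2.2.le⟩
  have hredA := fun r => gbal_reduce (p := p) (R := R) (L := L) (A := Ioc 0 r)
    (fun a ha => ha.1) (fun a ha b hb => ⟨hb.1, hb.2.trans ha.2⟩) (hfinA r)
  have hredB := fun r => gbal_reduce (p := p) (R := R) (L := L) (A := Ioo 0 r)
    (fun a ha => ha.1) (fun a ha b hb => ⟨hb.1, lt_of_le_of_lt hb.2 ha.2⟩) (hfinB r)
  have hSfin : {w ∈ R ∪ L | p w ∈ Ioc 0 y ∧ gbal p R L (Ioc 0 (p w)) ≤ -k}.Finite := by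
    apply (hfinA y).subset
    rintro z ⟨h1, h2, _⟩; exact ⟨h1, h2⟩
  have hSne : {w ∈ R ∪ L | p w ∈ Ioc 0 y ∧ gbal p R L (Ioc 0 (p w)) ≤ -k}.Nonempty := by
    rcases hredA y with h | ⟨w, hw, hwy, h⟩
    · omega
    · exact ⟨w, hw, hwy, by rw [← h]; exact hy⟩
  obtain ⟨u, ⟨hu, huy, huk⟩, hmin⟩ := Set.exists_min_image _ p hSfin hSne
  have hlt : ∀ w ∈ R ∪ L, 0 < p w → p w < p u → -k < gbal p R L (Ioc 0 (p w)) := by
    intro w hw hw0 hwu
    by_contra hcon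
    push Not at hcon
    have := hmin w ⟨hw, ⟨hw0, hwu.le.trans huy.2⟩, hcon⟩
    exact absurd hwu (not_lt.mpr this)
  have hA : ∀ r < p u, -k < gbal p R L (Ioc 0 r) := by
    intro r hr
    rcases hredA r with h | ⟨w, hw, hwy, h⟩
    · omega
    · rw [h]; exact hlt w hw hwy.1 (lt_of_le_of_lt hwy.2 hr)
  have hB : ∀ r ≤ p u, -k < gbal p R L (Ioo 0 r) := by
    intro r hr
    rcases hredB r with h | ⟨w, hw, hwy, h⟩
    · omega
    · rw [h]; exact hlt w hw hwy.1 (lt_of_lt_of_le hwy.2 hr)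
  have hdec : gbal p R L (Ioc 0 (p u)) = gbal p R L (Ioo 0 (p u)) + gbal p R L {p u} := by
    have h1 : Ioc 0 (p u) = Ioo 0 (p u) ∪ {p u} := by
      rw [Set.Ioo_union_right huy.1]
    rw [h1]
    apply gbal_union
    · rw [Set.disjoint_singleton_right]; simp
    · rw [← h1]; exact (hfinA _).subset fun z hz => ⟨Or.inl hz.1, hz.2⟩
    · rw [← h1]; exact (hfinA _).subset fun z hz => ⟨Or.inr hz.1, hz.2⟩
  have hBu := hB (p u) le_rfl
  rcases hu with huR | huL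
  · have := gbal_singleton_right hinj huR hRL
    rw [this] at hdec
    omega
  · have := gbal_singleton_left hinj huL hRL
    rw [this] at hdec
    exact ⟨u, huL, huy.1, by omega, hA, hB⟩

end Pool.Agent.MeteorOne
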