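import Mathlib
import Pool.Agent.Lib_helper16.Meteor.Tau
import Pool.Agent.Lib_helper89.MeteorOne.Bal

/-!
One-dimensional meteors: the deterministic part.
-/

namespace Pool.Agent.MeteorOne

open Set Filter Pool.Agent.Meteor
open scoped ENNReal NNReal

/-- Position at time `0`. -/
noncomputable def px (x : Met 1) : ℝ := x.1 0

/-- Direction (`1` or `-1`). -/
noncomputable def sx (x : Met 1) : ℝ := (x.2 : Sp 1) 0

theorem norm_sp (v : Sp 1) : ‖v‖ = |v 0| := by
  rw [EuclideanSpace.norm_eq, Fin.sum_univ_one, Real.norm_eq_abs, sq_abs, Real.sqrt_sq_eq_abs]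

theorem norm_fst (x : Met 1) : ‖x.1‖ = |px x| := norm_sp x.1

theorem sx_cases (x : Met 1) : sx x = 1 ∨ sx x = -1 := by
  have h1 : ‖(x.2 : Sp 1)‖ = 1 := by simp
  rw [norm_sp] at h1
  exact eq_or_eq_neg_of_abs_eq h1

theorem pos_zero (x : Met 1) (t : ℝ) : (pos x t) 0 = px x + t * sx x := by
  unfold pos px sx
  simp

theorem norm_pos' (x : Met 1) (t : ℝ) : ‖pos x t‖ = |px x + t * sx x| := by
  rw [norm_sp, pos_zero]

theorem norm_diff (x y : Met 1) (t : ℝ) :
    ‖pos x t - pos y t‖ = |(px x - px y) + t * (sx x - sx y)| := by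
  rw [norm_sp]
  have : (pos x t - pos y t) 0 = (pos x t) 0 - (pos y t) 0 := rfl
  rw [this, pos_zero, pos_zero]
  congr 1; ring

/-- Isolated meteors. -/
def iso (ε : ℝ) (F : Set (Met 1)) : Set (Met 1) := {x ∈ F | ∀ y ∈ F, y ≠ x → 2 * ε < |px y - px x|}

theorem iso_inj {ε : ℝ} (hε : 0 < ε) {F : Set (Met 1)} {x y : Met 1} (hx : x ∈ iso ε F)
    (hy : y ∈ F) (h : px x = px y) : x = y := by
  by_contra hne
  have h1 := hx.2 y hy (fun h => hne h.symm)
  rw [h, sub_self, abs_zero] at h1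
  linarith

variable {ε : ℝ}

theorem tau_facing (hε : 0 < ε) {x y : Met 1} (hx : sx x = 1) (hy : sx y = -1)
    (hxy : px x + 2 * ε < px y) : tau ε x y = ENNReal.ofReal ((px y - px x - 2 * ε) / 2) := by
  apply le_antisymm
  · have h : ‖pos x ((⟨(px y - px x - 2 * ε) / 2, by linarith⟩ : ℝ≥0) : ℝ) -
        pos y ((⟨(px y - px x - 2 * ε) / 2, by linarith⟩ : ℝ≥0) : ℝ)‖ ≤ 2 * ε := by
      rw [norm_diff, hx, hy]
      show |px x - px y + (px y - px x - 2 * ε) / 2 * (1 - -1)| ≤ 2 * ε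
      have : px x - px y + (px y - px x - 2 * ε) / 2 * (1 - -1) = - (2 * ε) := by ring
      rw [this, abs_neg, abs_of_pos (by linarith)]
    refine (tau_le h).trans ?_
    apply le_of_eq
    rw [ENNReal.ofReal]
    congr 1
    exact (Real.toNNReal_of_nonneg (by linarith)).symm
  · unfold tau
    refine le_iInf₂ (fun t ht => ?_)
    rw [norm_diff, hx, hy] at ht
    have h1 := (abs_le.mp ht).1
    rw [ENNReal.ofReal]
    rw [ENNReal.coe_le_coe]
    apply Real.toNNReal_le_iff_le_coe.mpr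
    linarith

theorem tau_lt_top_iff (hε : 0 < ε) {x y : Met 1} (hne : 2 * ε < |px y - px x|)
    (hlt : tau ε x y < ∞) :
    (sx x = 1 ∧ sx y = -1 ∧ px x + 2 * ε < px y) ∨ (sx x = -1 ∧ sx y = 1 ∧ px y + 2 * ε < px x) := by
  obtain ⟨t, ht⟩ : ∃ t : ℝ≥0, tau ε x y = t :=
    ⟨(tau ε x y).toNNReal, (ENNReal.coe_toNNReal hlt.ne).symm⟩
  have hc := contact_of_tau_eq ht
  rw [norm_diff] at hc
  have ht0 : (0 : ℝ) ≤ t := t.2
  rcases sx_cases x with hx | hx <;> rcases sx_cases y with hy | hy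
  · rw [hx, hy, sub_self, mul_zero, add_zero, abs_sub_comm] at hc
    linarith
  · left
    refine ⟨hx, hy, ?_⟩
    rw [hx, hy] at hc
    have h2 := (abs_le.mp hc)
    rcases lt_abs.mp hne with h | h
    · linarith
    · exfalso
      nlinarith [h2.2]
  · right
    refine ⟨hx, hy, ?_⟩
    rw [hx, hy] at hc
    have h2 := (abs_le.mp hc)
    rcases lt_abs.mp hne with h | h
    · exfalso
      nlinarith [h2.1]
    · linarith
  · rw [hx, hy, sub_self, mul_zero, add_zero, abs_sub_comm] at hc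
    linarith

theorem tau_zero_of_near {x y : Met 1} (h : |px y - px x| ≤ 2 * ε) : tau ε x y = 0 := by
  apply le_antisymm _ zero_le
  have h1 : ‖pos x ((0 : ℝ≥0) : ℝ) - pos y ((0 : ℝ≥0) : ℝ)‖ ≤ 2 * ε := by
    rw [norm_diff]
    simp only [NNReal.coe_zero, zero_mul, add_zero]
    rw [abs_sub_comm]; exact h
  simpa using tau_le h1

/-- The right-mover `x` and the left-mover `y` annihilate each other. -/
def Mt (ε : ℝ) (F : Set (Met 1)) (x y : Met 1) : Prop :=
  x ∈ iso ε F ∧ y ∈ iso ε F ∧ sx x = 1 ∧ sx y = -1 ∧ px x + 2 * ε < px y ∧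
    life (tau ε) F x = ENNReal.ofReal ((px y - px x - 2 * ε) / 2) ∧
    life (tau ε) F y = ENNReal.ofReal ((px y - px x - 2 * ε) / 2)

variable {F : Set (Met 1)}

theorem life_zero_of_not_iso (hF : F.Finite) {x : Met 1} (hx : x ∈ F)
    (hx' : x ∉ iso ε F) : life (tau ε) F x = 0 := by
  unfold iso at hx'
  rw [mem_ofPred_eq, not_and] at hx'
  have := hx' hx
  push Not at this
  obtain ⟨y, hy, hne, h⟩ := this
  have h0 := tau_zero_of_near h
  have := life_le (tau_symm ε) hF hx hy hne (by rw [h0]; exact zero_le)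
  rw [h0] at this
  exact le_antisymm this zero_le

theorem exists_match (hε : 0 < ε) (hF : F.Finite) {x : Met 1} (hx : x ∈ iso ε F)
    (hlt : life (tau ε) F x < ∞) :
    (sx x = 1 ∧ ∃ y, Mt ε F x y) ∨ (sx x = -1 ∧ ∃ y, Mt ε F y x) := by
  obtain ⟨y, hy, hne, h1, h2⟩ := exists_killer (tau_symm ε) hF hx.1 hlt
  have hd : 2 * ε < |px y - px x| := hx.2 y hy hne
  have htop : tau ε x y < ∞ := by rw [← h2]; exact hlt
  have hyI : y ∈ iso ε F := by
    by_contra hcon
    have h3 := life_zero_of_not_iso hF hy hcon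
    rw [h1] at h3
    obtain h4 := contact_of_tau_eq (ε := ε) (x := x) (y := y) (t := 0) (by simpa using h3)
    rw [norm_diff] at h4
    simp only [NNReal.coe_zero, zero_mul, add_zero] at h4
    rw [abs_sub_comm] at h4
    linarith
  rcases tau_lt_top_iff hε hd htop with ⟨hx1, hy1, hxy⟩ | ⟨hx1, hy1, hxy⟩
  · left
    refine ⟨hx1, y, hx, hyI, hx1, hy1, hxy, ?_, ?_⟩
    · rw [h2, tau_facing hε hx1 hy1 hxy]
    · rw [h1, tau_facing hε hx1 hy1 hxy]
  · right
    refine ⟨hx1, y, hyI, hx, hy1, hx1, hxy, ?_, ?_⟩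
    · rw [h1, tau_symm, tau_facing hε hy1 hx1 hxy]
    · rw [h2, tau_symm, tau_facing hε hy1 hx1 hxy]

theorem Mt.right_unique (hε : 0 < ε) {x y y' : Met 1} (h : Mt ε F x y) (h' : Mt ε F x y') :
    y = y' := by
  apply iso_inj hε h.2.1 h'.2.1.1
  have h1 := h.2.2.2.2.2.1
  rw [h'.2.2.2.2.2.1, ENNReal.ofReal_eq_ofReal_iff (by have := h'.2.2.2.2.1; linarith)
    (by have := h.2.2.2.2.1; linarith)] at h1
  linarith

theorem Mt.left_unique (hε : 0 < ε) {x x' y : Met 1} (h : Mt ε F x y) (h' : Mt ε F x' y) :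
    x = x' := by
  apply iso_inj hε h.1 h'.1.1
  have h1 := h.2.2.2.2.2.2
  rw [h'.2.2.2.2.2.2, ENNReal.ofReal_eq_ofReal_iff (by have := h'.2.2.2.2.1; linarith)
    (by have := h.2.2.2.2.1; linarith)] at h1
  linarith

theorem inner_right (hε : 0 < ε) (hF : F.Finite) {x y z : Met 1} (h : Mt ε F x y)
    (hz : z ∈ iso ε F) (h1 : px x < px z) (h2 : px z < px y) (hs : sx z = 1) :
    ∃ z', Mt ε F z z' ∧ px z' < px y := by
  obtain ⟨hx, hy, hsx, hsy, hxy, hTx, hTy⟩ := h
  have hne : z ≠ y := fun he => by rw [he] at h2; exact lt_irrefl _ h2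
  have hd : 2 * ε < |px z - px y| := hy.2 z hz.1 hne
  have hzy : px z + 2 * ε < px y := by
    rw [abs_of_neg (by linarith)] at hd; linarith
  have ht := tau_facing hε hs hsy hzy
  have hlt : ENNReal.ofReal ((px y - px z - 2 * ε) / 2) <
      ENNReal.ofReal ((px y - px x - 2 * ε) / 2) := by
    rw [ENNReal.ofReal_lt_ofReal_iff (by linarith)]; linarith
  have hTz : life (tau ε) F z < ENNReal.ofReal ((px y - px z - 2 * ε) / 2) := by
    by_contra hcon
    push Not at hcon
    have h3 := life_le (tau_symm ε) hF hy.1 hz.1 hne (by rw [tau_symm, ht]; exact hcon)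
    rw [tau_symm, ht, hTy] at h3
    exact absurd hlt (not_lt.mpr h3)
  rcases exists_match hε hF hz (hTz.trans_le le_top) with ⟨_, z', hz'⟩ | ⟨hcon, _⟩
  · refine ⟨z', hz', ?_⟩
    rw [hz'.2.2.2.2.2.1, ENNReal.ofReal_lt_ofReal_iff (by linarith)] at hTz
    linarith
  · rw [hs] at hcon; norm_num at hcon

theorem inner_left (hε : 0 < ε) (hF : F.Finite) {x y z : Met 1} (h : Mt ε F x y)
    (hz : z ∈ iso ε F) (h1 : px x < px z) (h2 : px z < px y) (hs : sx z = -1) :
    ∃ z', Mt ε F z' z ∧ px x < px z' := by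
  obtain ⟨hx, hy, hsx, hsy, hxy, hTx, hTy⟩ := h
  have hne : z ≠ x := fun he => by rw [he] at h1; exact lt_irrefl _ h1
  have hd : 2 * ε < |px z - px x| := hx.2 z hz.1 hne
  have hzy : px x + 2 * ε < px z := by
    rw [abs_of_pos (by linarith)] at hd; linarith
  have ht := tau_facing hε hsx hs hzy
  have hlt : ENNReal.ofReal ((px z - px x - 2 * ε) / 2) <
      ENNReal.ofReal ((px y - px x - 2 * ε) / 2) := by
    rw [ENNReal.ofReal_lt_ofReal_iff (by linarith)]; linarith
  have hTz : life (tau ε) F z < ENNReal.ofReal ((px z - px x - 2 * ε) / 2) := by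
    by_contra hcon
    push Not at hcon
    have h3 := life_le (tau_symm ε) hF hx.1 hz.1 hne (by rw [ht]; exact hcon)
    rw [ht, hTx] at h3
    exact absurd hlt (not_lt.mpr h3)
  rcases exists_match hε hF hz (hTz.trans_le le_top) with ⟨hcon, _⟩ | ⟨_, z', hz'⟩
  · rw [hs] at hcon; norm_num at hcon
  · refine ⟨z', hz', ?_⟩
    rw [hz'.2.2.2.2.2.2, ENNReal.ofReal_lt_ofReal_iff (by linarith)] at hTz
    linarith

/-- Isolated right-movers. -/
def Rt (ε : ℝ) (F : Set (Met 1)) : Set (Met 1) := {x ∈ iso ε F | sx x = 1}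

/-- Isolated left-movers. -/
def Lt (ε : ℝ) (F : Set (Met 1)) : Set (Met 1) := {x ∈ iso ε F | sx x = -1}

theorem disjoint_RL : Disjoint (Rt ε F) (Lt ε F) := by
  rw [Set.disjoint_left]
  rintro x ⟨_, h⟩ ⟨_, h'⟩
  rw [h] at h'; norm_num at h'

theorem RL_union : Rt ε F ∪ Lt ε F = iso ε F := by
  ext x
  constructor
  · rintro (h | h)
    · exact h.1
    · exact h.1
  · intro h
    rcases sx_cases x with h' | h'
    · exact Or.inl ⟨h, h'⟩
    · exact Or.inr ⟨h, h'⟩

theorem RL_inj (hε : 0 < ε) : ∀ x ∈ Rt ε F ∪ Lt ε F, ∀ y ∈ Rt ε F ∪ Lt ε F, px x = px y → x = y := by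
  rw [RL_union]
  intro x hx y hy h
  exact iso_inj hε hx hy.1 h

/-- Isolated right-movers minus isolated left-movers with position in `A`. -/
noncomputable abbrev bal (ε : ℝ) (F : Set (Met 1)) (A : Set ℝ) : ℤ := gbal px (Rt ε F) (Lt ε F) A

theorem bal_inner (hε : 0 < ε) (hF : F.Finite) {x y : Met 1} (h : Mt ε F x y) :
    bal ε F (Ioo (px x) (px y)) = 0 := by
  have hcard : {z ∈ Rt ε F | px z ∈ Ioo (px x) (px y)}.ncard =
      {z ∈ Lt ε F | px z ∈ Ioo (px x) (px y)}.ncard := by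
    have h1 : ∀ z ∈ {z ∈ Rt ε F | px z ∈ Ioo (px x) (px y)}, ∃ z', Mt ε F z z' ∧ px z' < px y := by
      rintro z ⟨hz, hz1⟩
      exact inner_right hε hF h hz.1 hz1.1 hz1.2 hz.2
    choose! f hf using h1
    apply Set.ncard_congr (fun z _ => f z)
    · intro z hz
      have h2 := hf z hz
      refine ⟨⟨h2.1.2.1, h2.1.2.2.2.1⟩, ?_, h2.2⟩
      have h3 := h2.1.2.2.2.2.1
      have h4 := hz.2.1
      linarith
    · intro a b ha hb hab
      have h2 := (hf a ha).1
      have h3 := (hf b hb).1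
      rw [hab] at h2
      exact h2.left_unique hε h3
    · rintro b ⟨hb, hb1⟩
      obtain ⟨a, ha, ha'⟩ := inner_left hε hF h hb.1 hb1.1 hb1.2 hb.2
      have haS : a ∈ {z ∈ Rt ε F | px z ∈ Ioo (px x) (px y)} := by
        refine ⟨⟨ha.1, ha.2.2.1⟩, ha', ?_⟩
        have h3 := ha.2.2.2.2.1
        have h4 := hb1.2
        linarith
      exact ⟨a, haS, (hf a haS).1.right_unique hε ha⟩
  unfold bal gbal
  rw [hcard]; ring

theorem bal_union (hF : F.Finite) {A B : Set ℝ} (hAB : Disjoint A B) :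
    bal ε F (A ∪ B) = bal ε F A + bal ε F B := by
  apply gbal_union hAB
  · exact hF.subset fun z hz => hz.1.1.1
  · exact hF.subset fun z hz => hz.1.1.1

theorem bal_matched (hε : 0 < ε) (hF : F.Finite) {x y : Met 1} (h : Mt ε F x y) :
    bal ε F (Icc (px x) (px y)) = 0 := by
  have hlt : px x < px y := by have := h.2.2.2.2.1; linarith
  have h1 : Icc (px x) (px y) = ({px x} ∪ Ioo (px x) (px y)) ∪ {px y} := by
    rw [Set.singleton_union, Set.Ioo_insert_left hlt, Set.Ico_union_right hlt.le]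
  rw [h1, bal_union hF, bal_union hF, bal_inner hε hF h]
  · have h2 := gbal_singleton_right (p := px) (RL_inj (F := F) hε)
      (z := x) ⟨h.1, h.2.2.1⟩ disjoint_RL
    have h3 := gbal_singleton_left (p := px) (RL_inj (F := F) hε)
      (z := y) ⟨h.2.1, h.2.2.2.1⟩ disjoint_RL
    unfold bal
    rw [h2, h3]; norm_num
  · rw [Set.disjoint_left]
    rintro a rfl h; exact lt_irrefl _ h.1
  · rw [Set.disjoint_right]
    rintro a rfl (h | h)
    · exact hlt.ne' h
    · exact lt_irrefl _ h.2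

/-- The matching lemma. -/
theorem match_of_walk (hε : 0 < ε) (hF : F.Finite) {v u : Met 1} (hv : v ∈ iso ε F)
    (hu : u ∈ iso ε F) (hsv : sx v = 1) (hsu : sx u = -1) (hvu : px v < px u)
    (h1 : ∀ r, px v < r → r < px u → 0 < bal ε F (Icc (px v) r))
    (h1' : ∀ r, px v < r → r ≤ px u → 0 < bal ε F (Ico (px v) r))
    (h2 : bal ε F (Icc (px v) (px u)) = 0) : Mt ε F v u := by
  have hne : u ≠ v := fun he => by rw [he] at hvu; exact lt_irrefl _ hvu
  have hd : 2 * ε < |px u - px v| := hv.2 u hu.1 hne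
  have hd' : px v + 2 * ε < px u := by rw [abs_of_pos (by linarith)] at hd; linarith
  have htau := tau_facing hε hsv hsu hd'
  -- a match of `u` strictly to the right of `v` is impossible
  have key : ∀ u', Mt ε F u' u → px v < px u' → False := by
    intro u' hu' hlt
    have hlt' : px u' < px u := by have := hu'.2.2.2.2.1; linarith
    have h3 : Icc (px v) (px u) = Ico (px v) (px u') ∪ Icc (px u') (px u) := by
      rw [Set.Ico_union_Icc_eq_Icc hlt.le hlt'.le]
    rw [h3, bal_union hF, bal_matched hε hF hu', add_zero] at h2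
    · have := h1' (px u') hlt hlt'.le
      rw [h2] at this; exact lt_irrefl _ this
    · rw [Set.disjoint_left]
      rintro a ha hb; exact absurd ha.2 (not_lt.mpr hb.1)
  by_cases hTv : life (tau ε) F v < ∞
  · rcases exists_match hε hF hv hTv with ⟨_, z, hz⟩ | ⟨hcon, _⟩
    · rcases lt_trichotomy (px z) (px u) with hlt | heq | hgt
      · exfalso
        have h3 := h1 (px z) (by have := hz.2.2.2.2.1; linarith) hlt
        rw [bal_matched hε hF hz] at h3
        exact lt_irrefl _ h3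
      · have : z = u := iso_inj hε hz.2.1 hu.1 heq
        rw [this] at hz; exact hz
      · exfalso
        obtain ⟨u', hu', hlt⟩ := inner_left hε hF hz hu hvu hgt hsu
        exact key u' hu' hlt
    · rw [hsv] at hcon; norm_num at hcon
  · exfalso
    have hTv' : life (tau ε) F v = ∞ := not_lt_top_iff.mp hTv
    have hTu : life (tau ε) F u < ∞ := by
      by_contra hcon
      rw [not_lt_top_iff] at hcon
      have := life_le (tau_symm ε) hF hv.1 hu.1 hne (by rw [hcon]; exact le_top)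
      rw [htau] at this
      exact hTv (this.trans_lt ENNReal.ofReal_lt_top)
    rcases exists_match hε hF hu hTu with ⟨hcon, _⟩ | ⟨_, u', hu'⟩
    · rw [hsu] at hcon; norm_num at hcon
    · rcases lt_trichotomy (px u') (px v) with hlt | heq | hgt
      · obtain ⟨z, hz, _⟩ := inner_right hε hF hu' hv hlt hvu hsv
        rw [hz.2.2.2.2.2.1] at hTv'
        exact ENNReal.ofReal_ne_top hTv'
      · have : u' = v := iso_inj hε hu'.1 hv.1 heq
        rw [this] at hu'
        rw [hu'.2.2.2.2.2.1] at hTv'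
        exact ENNReal.ofReal_ne_top hTv'
      · exact key u' hu' hgt

end Pool.Agent.MeteorOne
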