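import Mathlib
import Pool.Agent.Lib_helper89.MeteorOne.Det

/-!
One-dimensional meteors: infinitely many visitors from unbounded balances.
-/

namespace Pool.Agent.MeteorOne

open Set Filter Pool.Agent.Meteor
open scoped ENNReal NNReal

variable {ε : ℝ} {F : Set (Met 1)}

theorem iso_inBall (hε : 0 < ε) {R : ℝ} {z : Met 1} (hz : |px z| + 2 * ε ≤ R) :
    z ∈ iso ε (inBall F R) ↔ z ∈ iso ε F := by
  constructor
  · rintro ⟨h1, h2⟩
    refine ⟨h1.1, fun y hy hne => ?_⟩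
    by_cases hyR : ‖y.1‖ ≤ R
    · exact h2 y ⟨hy, hyR⟩ hne
    · rw [norm_fst] at hyR
      push Not at hyR
      have := abs_sub_abs_le_abs_sub (px y) (px z)
      linarith
  · rintro ⟨h1, h2⟩
    refine ⟨⟨h1, ?_⟩, fun y hy hne => h2 y hy.1 hne⟩
    rw [norm_fst]; linarith

theorem bal_inBall (hε : 0 < ε) {R : ℝ} {A : Set ℝ} (hA : ∀ a ∈ A, |a| + 2 * ε ≤ R) :
    bal ε (inBall F R) A = bal ε F A := by
  unfold bal gbal
  have h1 : {z ∈ Rt ε (inBall F R) | px z ∈ A} = {z ∈ Rt ε F | px z ∈ A} := by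
    ext z
    constructor
    · rintro ⟨⟨h1, h2⟩, h3⟩
      exact ⟨⟨(iso_inBall hε (hA _ h3)).mp h1, h2⟩, h3⟩
    · rintro ⟨⟨h1, h2⟩, h3⟩
      exact ⟨⟨(iso_inBall hε (hA _ h3)).mpr h1, h2⟩, h3⟩
  have h2 : {z ∈ Lt ε (inBall F R) | px z ∈ A} = {z ∈ Lt ε F | px z ∈ A} := by
    ext z
    constructor
    · rintro ⟨⟨h1, h2⟩, h3⟩
      exact ⟨⟨(iso_inBall hε (hA _ h3)).mp h1, h2⟩, h3⟩
    · rintro ⟨⟨h1, h2⟩, h3⟩
      exact ⟨⟨(iso_inBall hε (hA _ h3)).mpr h1, h2⟩, h3⟩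
  rw [h1, h2]

section

variable (hfin : ∀ R, (inBall F R).Finite)

include hfin

theorem fin_iso (r : ℝ) : {z ∈ Rt ε F ∪ Lt ε F | |px z| ≤ r}.Finite := by
  apply (hfin r).subset
  rintro z ⟨hz, hz'⟩
  rw [RL_union] at hz
  exact ⟨hz.1, by rw [norm_fst]; exact hz'⟩

theorem bal_union' {A B : Set ℝ} (hAB : Disjoint A B) {r : ℝ} (hr : ∀ a ∈ A ∪ B, |a| ≤ r) :
    bal ε F (A ∪ B) = bal ε F A + bal ε F B := by
  apply gbal_union hAB
  · exact (fin_iso hfin r).subset fun z hz => ⟨Or.inl hz.1, hr _ hz.2⟩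
  · exact (fin_iso hfin r).subset fun z hz => ⟨Or.inr hz.1, hr _ hz.2⟩

/-- The pair of first passages at level `k` is matched in all large balls. -/
theorem exists_pair (hε : 0 < ε) (h0 : ∀ x ∈ F, px x ≠ 0) {k : ℤ} (hk : 0 < k)
    (hp : ∃ y, bal ε F (Ioc 0 y) ≤ -k) (hm : ∃ y, k ≤ bal ε F (Ico (-y) 0)) :
    ∃ v u, v ∈ F ∧ u ∈ F ∧ px v < 0 ∧ 0 < px u ∧ sx v = 1 ∧ sx u = -1 ∧
      bal ε F (Ioc 0 (px u)) = -k ∧ bal ε F (Ico (px v) 0) = k ∧ px v + 2 * ε < px u ∧
      ∀ᶠ R in atTop, Mt ε (inBall F R) v u := by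
  obtain ⟨y, hy⟩ := hp
  obtain ⟨y', hy'⟩ := hm
  obtain ⟨u, hu, hu0, huk, hu1, hu2⟩ := exists_first (RL_inj hε) disjoint_RL
    (fin_iso hfin) hk hy
  have hrefl : ∀ r, (-(Ico (-r) 0) : Set ℝ) = Ioc 0 r := by
    intro r
    ext a
    simp only [Set.mem_neg, mem_Ico, mem_Ioc]
    constructor
    · rintro ⟨h1, h2⟩; exact ⟨by linarith, by linarith⟩
    · rintro ⟨h1, h2⟩; exact ⟨by linarith, by linarith⟩
  have hrefl1 : ∀ r : ℝ, (-(Ioc 0 r) : Set ℝ) = Ico (-r) 0 := by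
    intro r
    rw [← hrefl, neg_neg]
  have hrefl2 : ∀ r : ℝ, (-(Ioo 0 r) : Set ℝ) = Ioo (-r) 0 := by
    intro r
    ext a
    simp only [Set.mem_neg, mem_Ioo]
    constructor
    · rintro ⟨h1, h2⟩; exact ⟨by linarith, by linarith⟩
    · rintro ⟨h1, h2⟩; exact ⟨by linarith, by linarith⟩
  have hmir : ∀ A : Set ℝ, gbal (fun z => - px z) (Lt ε F) (Rt ε F) A = - bal ε F (-A) := by
    intro A
    rw [gbal_neg, gbal_swap]
  obtain ⟨v, hv, hv0, hvk, hv1, hv2⟩ := exists_first (p := fun z => - px z) (R := Lt ε F)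
    (L := Rt ε F) (by
      intro x hx y hy h
      rw [Set.union_comm] at hx hy
      exact RL_inj hε x hx y hy (by simpa using h)) disjoint_RL.symm (by
      intro r
      rw [Set.union_comm]
      simp only [abs_neg]
      exact fin_iso hfin r) hk (y := y') (by
      rw [hmir, hrefl1]; linarith)
  rw [hmir, hrefl1, neg_neg] at hvk
  have hvk' : bal ε F (Ico (px v) 0) = k := by linarith
  have hv0' : px v < 0 := by linarith
  have hv1' : ∀ r, px v < r → bal ε F (Ico r 0) < k := by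
    intro r hr
    have := hv1 (-r) (by linarith)
    rw [hmir, hrefl1, neg_neg] at this
    linarith
  have hv2' : ∀ r, px v ≤ r → bal ε F (Ioo r 0) < k := by
    intro r hr
    have := hv2 (-r) (by linarith)
    rw [hmir, hrefl2, neg_neg] at this
    linarith
  have huv : px v < px u := hv0'.trans hu0
  have hne : u ≠ v := fun he => by rw [he] at huv; exact lt_irrefl _ huv
  have hd : 2 * ε < |px u - px v| := hv.1.2 u hu.1.1 hne
  have hd' : px v + 2 * ε < px u := by rw [abs_of_pos (by linarith)] at hd; linarith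
  have hz0 : bal ε F {0} = 0 := by
    unfold bal gbal
    have h1 : {z ∈ Rt ε F | px z ∈ ({0} : Set ℝ)} = ∅ := by
      rw [Set.eq_empty_iff_forall_notMem]
      rintro z ⟨h1, h2⟩
      exact h0 z h1.1.1 h2
    have h2 : {z ∈ Lt ε F | px z ∈ ({0} : Set ℝ)} = ∅ := by
      rw [Set.eq_empty_iff_forall_notMem]
      rintro z ⟨h1, h2⟩
      exact h0 z h1.1.1 h2
    rw [h1, h2]; simp
  refine ⟨v, u, hv.1.1, hu.1.1, hv0', hu0, hv.2, hu.2, huk, hvk', hd', ?_⟩
  -- the walk from `v`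
  have hb : ∀ A B : Set ℝ, Disjoint A B → A ∪ B ⊆ Icc (px v) (px u) →
      bal ε F (A ∪ B) = bal ε F A + bal ε F B := by
    intro A B hAB hsub
    apply bal_union' hfin hAB (r := max |px v| |px u|)
    intro a ha
    have h1 := hsub ha
    exact abs_le_max_abs_abs h1.1 h1.2
  have hIcc : ∀ r, 0 ≤ r → r ≤ px u → bal ε F (Icc (px v) r) = k + bal ε F (Ioc 0 r) := by
    intro r hr hru
    have e1 : Icc (px v) r = (Ico (px v) 0 ∪ {0}) ∪ Ioc 0 r := by
      rw [Set.Ico_union_right hv0'.le, Set.Icc_union_Ioc_eq_Icc hv0'.le hr]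
    have e2 : Ico (px v) 0 ∪ ({0} : Set ℝ) = Icc (px v) 0 := Set.Ico_union_right hv0'.le
    rw [e1, hb _ _ _ (by rw [← e1]; exact Icc_subset_Icc_right hru),
      hb (Ico (px v) 0) {0} _ (by rw [e2]; exact Icc_subset_Icc_right hu0.le), hz0, hvk', add_zero]
    · rw [Set.disjoint_singleton_right]; simp
    · rw [e2, Set.disjoint_left]
      intro a ha hb
      exact absurd ha.2 (not_le.mpr hb.1)
  have hIco : ∀ r, 0 < r → r ≤ px u → bal ε F (Ico (px v) r) = k + bal ε F (Ioo 0 r) := by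
    intro r hr hru
    have e1 : Ico (px v) r = (Ico (px v) 0 ∪ {0}) ∪ Ioo 0 r := by
      rw [Set.Ico_union_right hv0'.le, Set.Icc_union_Ioo_eq_Ico hv0'.le hr]
    have e2 : Ico (px v) 0 ∪ ({0} : Set ℝ) = Icc (px v) 0 := Set.Ico_union_right hv0'.le
    rw [e1, hb _ _ _ (by rw [← e1]; exact Ico_subset_Icc_self.trans (Icc_subset_Icc_right hru)),
      hb (Ico (px v) 0) {0} _ (by rw [e2]; exact Icc_subset_Icc_right hu0.le), hz0, hvk', add_zero]
    · rw [Set.disjoint_singleton_right]; simp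
    · rw [e2, Set.disjoint_left]
      intro a ha hb
      exact absurd ha.2 (not_le.mpr hb.1)
  have w1 : ∀ r, px v < r → r < px u → 0 < bal ε F (Icc (px v) r) := by
    intro r hr hru
    rcases lt_or_ge r 0 with hneg | hpos
    · have e1 : Ico (px v) 0 = Icc (px v) r ∪ Ioo r 0 := by
        rw [Set.Icc_union_Ioo_eq_Ico hr.le hneg]
      have h1 : bal ε F (Ico (px v) 0) = bal ε F (Icc (px v) r) + bal ε F (Ioo r 0) := by
        rw [e1]
        apply hb
        · rw [Set.disjoint_left]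
          intro a ha hb
          exact absurd ha.2 (not_le.mpr hb.1)
        · rw [← e1]; exact Ico_subset_Icc_self.trans (Icc_subset_Icc_right hu0.le)
      have := hv2' r hr.le
      omega
    · rw [hIcc r hpos hru.le]
      have := hu1 r hru
      show 0 < k + gbal px (Rt ε F) (Lt ε F) (Ioc 0 r)
      omega
  have w2 : ∀ r, px v < r → r ≤ px u → 0 < bal ε F (Ico (px v) r) := by
    intro r hr hru
    rcases le_or_gt r 0 with hneg | hpos
    · have e1 : Ico (px v) 0 = Ico (px v) r ∪ Ico r 0 := by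
        rw [Set.Ico_union_Ico_eq_Ico hr.le hneg]
      have h1 : bal ε F (Ico (px v) 0) = bal ε F (Ico (px v) r) + bal ε F (Ico r 0) := by
        rw [e1]
        apply hb
        · rw [Set.disjoint_left]
          intro a ha hb
          exact absurd ha.2 (not_lt.mpr hb.1)
        · rw [← e1]; exact Ico_subset_Icc_self.trans (Icc_subset_Icc_right hu0.le)
      have := hv1' r hr
      omega
    · rw [hIco r hpos hru]
      have := hu2 r hru
      show 0 < k + gbal px (Rt ε F) (Lt ε F) (Ioo 0 r)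
      omega
  have w3 : bal ε F (Icc (px v) (px u)) = 0 := by
    rw [hIcc _ hu0.le le_rfl]
    show k + gbal px (Rt ε F) (Lt ε F) (Ioc 0 (px u)) = 0
    omega
  filter_upwards [eventually_ge_atTop (max |px v| |px u| + 2 * ε)] with R hR
  have hwin : ∀ a ∈ Icc (px v) (px u), |a| + 2 * ε ≤ R := by
    intro a ha
    have := abs_le_max_abs_abs ha.1 ha.2
    linarith
  apply match_of_walk hε (hfin R)
  · exact (iso_inBall hε (hwin _ ⟨le_rfl, huv.le⟩)).mpr hv.1
  · exact (iso_inBall hε (hwin _ ⟨huv.le, le_rfl⟩)).mpr hu.1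
  · exact hv.2
  · exact hu.2
  · exact huv
  · intro r hr hru
    rw [bal_inBall hε fun a ha => hwin a ⟨ha.1, ha.2.trans hru.le⟩]
    exact w1 r hr hru
  · intro r hr hru
    rw [bal_inBall hε fun a ha => hwin a ⟨ha.1, ha.2.le.trans hru⟩]
    exact w2 r hr hru
  · rw [bal_inBall hε hwin]; exact w3

theorem visitor_left (hε : 0 < ε) {v u : Met 1} (hv : v ∈ F) (hv0 : px v < 0) 
    (hsv : sx v = 1) (hd : px v + 2 * ε < px u) (hlt : - px v < px u)
    (h : ∀ᶠ R in atTop, Mt ε (inBall F R) v u) : v ∈ visitors ε F := by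
  refine ⟨hv, (Real.toNNReal (- px v - ε)), ?_, ?_⟩
  · filter_upwards [h] with R hR
    rw [existsAt_iff (hfin R) hR.1.1, hR.2.2.2.2.2.1]
    rw [ENNReal.ofReal, ENNReal.coe_lt_coe, Real.toNNReal_lt_toNNReal_iff (by linarith)]
    linarith
  · rw [norm_pos', hsv, mul_one]
    rcases le_or_gt 0 (- px v - ε) with h1 | h1
    · rw [Real.coe_toNNReal _ h1]
      have : px v + (- px v - ε) = - ε := by ring
      rw [this, abs_neg, abs_of_pos hε]
    · rw [Real.toNNReal_of_nonpos h1.le, NNReal.coe_zero, add_zero, abs_of_neg hv0]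
      linarith

theorem visitor_right (hε : 0 < ε) {v u : Met 1} (hu : u ∈ F) (hu0 : 0 < px u) 
    (hsu : sx u = -1) (hd : px v + 2 * ε < px u) (hlt : px u < - px v)
    (h : ∀ᶠ R in atTop, Mt ε (inBall F R) v u) : u ∈ visitors ε F := by
  refine ⟨hu, (Real.toNNReal (px u - ε)), ?_, ?_⟩
  · filter_upwards [h] with R hR
    rw [existsAt_iff (hfin R) hR.2.1.1, hR.2.2.2.2.2.2]
    rw [ENNReal.ofReal, ENNReal.coe_lt_coe, Real.toNNReal_lt_toNNReal_iff (by linarith)]
    linarith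
  · rw [norm_pos', hsu]
    rcases le_or_gt 0 (px u - ε) with h1 | h1
    · rw [Real.coe_toNNReal _ h1]
      have : px u + (px u - ε) * -1 = ε := by ring
      rw [this, abs_of_pos hε]
    · rw [Real.toNNReal_of_nonpos h1.le, NNReal.coe_zero, zero_mul, add_zero, abs_of_pos hu0]
      linarith

/-- Infinitely many visitors from unbounded balances on both sides. -/
theorem visitors_infinite (hε : 0 < ε) (h0 : ∀ x ∈ F, px x ≠ 0)
    (htie : ∀ x ∈ F, ∀ y ∈ F, x ≠ y → px x ≠ - px y)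
    (hp : ∀ k : ℤ, ∃ y, bal ε F (Ioc 0 y) ≤ -k) (hm : ∀ k : ℤ, ∃ y, k ≤ bal ε F (Ico (-y) 0)) :
    (visitors ε F).Infinite := by
  have h1 : ∀ k : ℕ, ∃ w ∈ visitors ε F, (0 < px w ∧ bal ε F (Ioc 0 (px w)) = -((k : ℤ) + 1)) ∨
      (px w < 0 ∧ bal ε F (Ico (px w) 0) = (k : ℤ) + 1) := by
    intro k
    obtain ⟨v, u, hv, hu, hv0, hu0, hsv, hsu, huk, hvk, hd, h⟩ :=
      exists_pair hfin hε h0 (k := (k : ℤ) + 1) (by positivity) (hp _) (hm _)
    rcases lt_trichotomy (- px v) (px u) with hlt | heq | hgt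
    · exact ⟨v, visitor_left hfin hε hv hv0 hsv hd hlt h, Or.inr ⟨hv0, hvk⟩⟩
    · exfalso
      have hne : u ≠ v := fun he => by rw [he] at hu0; linarith
      exact htie u hu v hv hne heq.symm
    · exact ⟨u, visitor_right hfin hε hu hu0 hsu hd hgt h, Or.inl ⟨hu0, huk⟩⟩
  choose f hf hf' using h1
  apply Set.infinite_of_injective_forall_mem (f := f) _ hf
  intro a b hab
  rcases hf' a with ⟨h1, h2⟩ | ⟨h1, h2⟩ <;> rcases hf' b with ⟨h3, h4⟩ | ⟨h3, h4⟩
  · rw [hab, h4] at h2; omega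
  · rw [hab] at h1; linarith
  · rw [hab] at h1; linarith
  · rw [hab, h4] at h2; omega

end

end Pool.Agent.MeteorOne
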